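import Pool.Agent.KS6_76.FTS.Main

/-!
# Total flow time under an energy budget: even very large additive errors are hard

Setting: a processor with power function `s ^ α` for a constant `α > 1`, preemptive schedules, jobs
with rational release times and works, a rational energy budget `E`.

We show that near-optimal schedules cannot be computed efficiently unless `P = NP` (question Q1), and
that this does not depend on the accuracy at all, up to errors of the order of the numbers in the
input: let `n` be the number of the jobs and let `M` be the sum of all the numbers of the instance
(the energy budget, the release times and the works).  For every `δ < 1` and every `K`, if a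
polynomial-time algorithm finds schedules of energy at most `E` with total flow time at most
`OPT + 2 ^ (n ^ K + K) * M ^ δ`, or only the order in which the jobs are completed in such a schedule,
then `P = NP`.

The proof is a self-reduction.  If all the release times, works and the energy budget are multiplied
by `c`, then the schedules of the new instance are the schedules of the old one slowed down by the
factor `c` (with the same speeds), and `OPT` is multiplied by `c`.  The allowed error is multiplied by
`c ^ δ` only.  So with `c = 2 ^ m`, where `m` is a suitable polynomial in the size of the input, rough
solutions for the scaled instance give solutions of the original instance with error `2 ^ (-k)`, and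
these are hard by the theorem about near-optimal schedules in the library.

Definitions: `Pool.Agent.W989.FT` (`Sched`, `Feasible`, `completion`, `flow`, `opt`, `NearOpt`,
`ComputesSchedules`, `ComputesOrders`), `Pool/Agent/KS6_76/FTS/Defs.lean` (`mag`, `err`, `Rough`,
`RoughSchedules`, `RoughOrders`), `Pool.Agent.NPC` (`PolyTime`, `InNP`, `InP`).
-/

namespace Pool.Agent.Results.MP_04f351_lc.SublinearError

open Pool.Agent.NPC Pool.Agent.W989.FT Pool.Agent.KS6_76.FTS

/-- For every `α > 1`, `δ < 1` and `K`: if near-optimal schedules (or their orders of completion)
for the total flow time under an energy budget are computed in polynomial time, or if only schedules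
with additive error `2 ^ (n ^ K + K) * M ^ δ` (or their orders of completion) are computed in
polynomial time, then `P = NP`. -/
theorem result (α : ℝ) (hα : 1 < α) (δ : ℝ) (h0 : 0 ≤ δ) (h1 : δ < 1) (K : ℕ)
    (h : (ComputesSchedules α ∨ ComputesOrders α) ∨ (RoughSchedules α δ K ∨ RoughOrders α δ K)) :
    ∀ L : Set (List Bool), InNP L → InP L := by
  rcases h with h | h
  · exact main hα h
  · exact main_rough hα h0 h1 K h

end Pool.Agent.Results.MP_04f351_lc.SublinearError
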